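import Pool.Agent.helper23.CS.Spec

/-!
# Row EXPO: exponential decay from the halving inequality
-/

open Finset

namespace CS

open CU

theorem EXPO (hRCO : RCO_stmt) (hGC : GC_stmt) : EXPO_stmt := by
  intro d β n hβ hstep
  have h01 : ∀ L : ℕ, 0 ≤ ML d β L ∧ ML d β L ≤ 1 := by
    intro L
    have h1 := hGC d β (zBox L (0 : ZSite d)) (0 : ZSite d)
    have h2 := (hRCO _ _ (zG (zBox L (0 : ZSite d))) β univ hβ).2.2.2
      (cl (zBox L (0 : ZSite d)) (0 : ZSite d)) none
    rw [← h1] at h2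
    exact h2
  have hpow : ∀ L : ℕ, ML d β L ≤ (1 / 2 : ℝ) ^ (L / (n + 1)) := by
    intro L
    induction L using Nat.strong_induction_on with
    | _ L ih =>
      rcases Nat.lt_or_ge L (n + 1) with h | h
      · rw [Nat.div_eq_of_lt h, pow_zero]
        exact (h01 L).2
      · have h3 := ih (L - (n + 1)) (by omega)
        have h4 := hstep L h
        have h5 : L / (n + 1) = (L - (n + 1)) / (n + 1) + 1 :=
          Nat.div_eq_sub_div (Nat.succ_pos n) h
        rw [h5, pow_succ]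
        linarith
  refine ⟨2, Real.log 2 / (n + 1), by norm_num,
    div_pos (Real.log_pos (by norm_num)) (by positivity), fun L => ?_⟩
  refine (hpow L).trans ?_
  have hn : (0 : ℝ) < (n : ℝ) + 1 := by positivity
  have hlog : 0 < Real.log 2 := Real.log_pos (by norm_num)
  have h6 : (L : ℝ) / ((n : ℝ) + 1) - 1 ≤ ((L / (n + 1) : ℕ) : ℝ) := by
    have h7 : L < (n + 1) * (L / (n + 1)) + (n + 1) := Nat.lt_mul_div_succ L (Nat.succ_pos n)
    have h8 : (L : ℝ) < ((n : ℝ) + 1) * ((L / (n + 1) : ℕ) : ℝ) + ((n : ℝ) + 1) := by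
      exact_mod_cast h7
    rw [sub_le_iff_le_add, div_le_iff₀ hn]
    linarith
  have h9 : (1 / 2 : ℝ) ^ (L / (n + 1)) = Real.exp (-(Real.log 2) * ((L / (n + 1) : ℕ) : ℝ)) := by
    rw [← Real.exp_log (show (0 : ℝ) < 1 / 2 by norm_num), ← Real.exp_nat_mul]
    congr 1
    rw [Real.log_div (by norm_num) (by norm_num), Real.log_one]
    ring
  rw [h9]
  have h10 : (2 : ℝ) = Real.exp (Real.log 2) := (Real.exp_log (by norm_num)).symm
  have h11 : (2 : ℝ) * Real.exp (-(Real.log 2 / ((n : ℝ) + 1)) * (L : ℝ)) =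
      Real.exp (Real.log 2 + -(Real.log 2 / ((n : ℝ) + 1)) * (L : ℝ)) := by
    rw [Real.exp_add, ← h10]
  rw [h11, Real.exp_le_exp]
  have h12 : -(Real.log 2 / ((n : ℝ) + 1)) * (L : ℝ) = -(Real.log 2) * ((L : ℝ) / ((n : ℝ) + 1)) := by
    ring
  rw [h12]
  nlinarith [mul_le_mul_of_nonneg_left h6 hlog.le]

end CS
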